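import Pool.Agent.Lib.helper17.Erdos
import Pool.Agent.H.MP_4ffbdc_co.A

/-! Stretching the edges of a colouring gadget by long equality gadgets. -/

set_option autoImplicit false

namespace Pool.Agent.H.DC

open SimpleGraph Finset Pool.Agent.H.SC

lemma even_short {V : Type} {T : SimpleGraph V} {g : ℕ}
    (h : ∀ v (c : T.Walk v v), c.IsCycle → g < c.length) {v : V} (w : T.Walk v v)
    (hw : w.length ≤ g) : Even w.length := by
  classical
  have key : ∀ {a b : V} (p : T.Walk a b), p.length ≤ g →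
      p.bypass.length % 2 = p.length % 2 := by
    intro a b p
    induction p with
    | nil => intro _; rfl
    | @cons a c b ha p ih =>
      intro hl
      rw [Walk.length_cons] at hl
      have h1 := ih (by omega)
      have h2 := p.length_bypass_le_length
      rw [Walk.bypass]
      split_ifs with hs
      · have h3 := congrArg Walk.length (p.bypass.take_spec hs)
        rw [Walk.length_append] at h3
        have h4 := p.bypass_isPath.takeUntil hs
        by_cases he : s(a, c) ∈ (p.bypass.takeUntil a hs).edges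
        · have := h4.length_eq_one_of_mem_edges (Sym2.eq_swap ▸ he)
          rw [Walk.length_cons]; omega
        · have := h a (Walk.cons ha _) ((Walk.cons_isCycle_iff _ _).2 ⟨h4, he⟩)
          rw [Walk.length_cons] at this
          omega
      · rw [Walk.length_cons, Walk.length_cons]; omega
  have h1 := key w hw
  rw [Walk.isPath_iff_eq_nil.1 w.bypass_isPath] at h1
  exact Nat.even_iff.2 h1.symm

/-- an equality gadget -/
structure EqG (q g : ℕ) where
  N : ℕ
  F : SimpleGraph (Fin N)
  p : Fin N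
  r : Fin N
  ne : p ≠ r
  ev : ∀ v (w : F.Walk v v), w.length ≤ g → Even w.length
  far : ∀ w : F.Walk p r, g ≤ w.length
  eq : ∀ c : Fin N → Fin q, (∀ u v, F.Adj u v → c u ≠ c v) → c p = c r
  col : ∃ c : Fin N → Fin q, ∀ u v, F.Adj u v → c u ≠ c v

lemma exists_EqG (q g : ℕ) : Nonempty (EqG (q + 1) g) := by
  classical
  obtain ⟨N, T, h1, h2⟩ := Lib.helper17.Erdos.erdos g q
  obtain ⟨K, ⟨K1, K2⟩, Km⟩ := (wellFounded_lt (α := SimpleGraph (Fin N))).has_min
    {K | K ≤ T ∧ ¬ ∃ c : Fin N → Fin (q + 1), ∀ u v, K.Adj u v → c u ≠ c v}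
    ⟨T, le_rfl, fun ⟨c, hc⟩ => by obtain ⟨u, v, a, b⟩ := h2 c; exact hc u v a b⟩
  obtain ⟨x, y, h⟩ : ∃ x y, K.Adj x y := by
    by_contra hc
    exact K2 ⟨fun _ => 0, fun u v a => (hc ⟨u, v, a⟩).elim⟩
  have hK : ∀ v (c : K.Walk v v), c.IsCycle → g < c.length := fun v c hc => by
    simpa using h1 v (c.mapLe K1) (hc.mapLe K1)
  have hD : ∀ v (c : (K.deleteEdges {s(x, y)}).Walk v v), c.IsCycle → g < c.length :=
    fun v c hc => by simpa using hK v (c.mapLe (deleteEdges_le _)) (hc.mapLe _)
  obtain ⟨f, f1, f2, -, f4⟩ := Lib.helper17.Erdos.sep hK h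
  refine ⟨⟨N, K.deleteEdges {s(x, y)}, x, y, h.ne, fun v w => even_short hD w, fun w => ?_,
    fun c hc => ?_, ?_⟩⟩
  · have key : ∀ {a b} (w : (K.deleteEdges {s(x, y)}).Walk a b), f b ≤ f a + w.length := by
      intro a b w
      induction w with
      | nil => simp
      | cons ha p ih =>
        rw [deleteEdges_adj] at ha
        have := f4 _ _ ha.1 (by simpa using ha.2)
        rw [Walk.length_cons]; omega
    have := key w
    omega
  · by_contra hn
    refine K2 ⟨c, fun u v a => ?_⟩
    by_cases e : s(u, v) = s(x, y)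
    · rcases Sym2.eq_iff.1 e with ⟨rfl, rfl⟩ | ⟨rfl, rfl⟩
      · exact hn
      · exact Ne.symm hn
    · exact hc u v (by simpa using ⟨a, by simpa using e⟩)
  · by_contra hc
    refine Km (K.deleteEdges {s(x, y)}) ⟨(deleteEdges_le _).trans K1, hc⟩
      (lt_of_le_of_ne (deleteEdges_le _) fun e => ?_)
    rw [← e] at h; simp at h

variable {q g : ℕ} (Q : EqG q g) {V E : Type} (Cr : V → V → Prop) (src tgt : E → V)

/-- generating relation of the stretched graph -/
inductive SR : V ⊕ E × Fin Q.N → V ⊕ E × Fin Q.N → Prop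
  | core (u v) : Cr u v → SR (.inl u) (.inl v)
  | inn (e x y) : Q.F.Adj x y → SR (.inr (e, x)) (.inr (e, y))
  | st (e x) : Q.F.Adj Q.p x → SR (.inl (src e)) (.inr (e, x))
  | en (e) : SR (.inr (e, Q.r)) (.inl (tgt e))

/-- the stretched graph -/
def SG : SimpleGraph (V ⊕ E × Fin Q.N) := fromRel (SR Q Cr src tgt)

variable {Q Cr src tgt}

lemma SG_col {c : V ⊕ E × Fin Q.N → Fin q} (hc : ∀ u v, (SG Q Cr src tgt).Adj u v → c u ≠ c v)
    (e : E) : c (.inl (src e)) ≠ c (.inl (tgt e)) := by
  classical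
  have h1 : ∀ u v, u ≠ v → SR Q Cr src tgt u v → c u ≠ c v := fun u v h h' =>
    hc u v ((fromRel_adj _ _ _).2 ⟨h, Or.inl h'⟩)
  have h2 := Q.eq (fun x => if x = Q.p then c (.inl (src e)) else c (.inr (e, x))) (by
    intro u v h
    by_cases hu : u = Q.p <;> by_cases hv : v = Q.p
    · exact absurd (hu.trans hv.symm) h.ne
    · simp only [hu, hv, if_true, if_false]
      exact h1 _ _ (by simp) (.st e v (hu ▸ h))
    · simp only [hu, hv, if_true, if_false]
      exact (h1 _ _ (by simp) (.st e u (hv ▸ h.symm))).symm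
    · simp only [hu, hv, if_false]
      exact h1 _ _ (by simpa using h.ne) (.inn e u v h))
  simp only [if_true, Q.ne.symm, if_false] at h2
  rw [h2]
  exact h1 _ _ (by simp) (.en e)

lemma SG_crit (c : V → Fin q) (x y : V) (h1 : ∀ u v, Cr u v → s(u, v) ≠ s(x, y) → c u ≠ c v)
    (h2 : ∀ e, c (src e) ≠ c (tgt e)) : Crit (SG Q Cr src tgt) q (.inl x) (.inl y) := by
  classical
  obtain ⟨κ, hκ⟩ := Q.col
  let d : V ⊕ E × Fin Q.N → Fin q := fun z => match z with
    | .inl u => c u
    | .inr (e, a) => Equiv.swap (κ Q.p) (c (src e)) (κ a)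
  have key : ∀ u v, SR Q Cr src tgt u v → s(u, v) ≠ s(.inl x, .inl y) → d u ≠ d v := by
    intro u v h he
    cases h with
    | core u v h => exact h1 u v h (by simpa using he)
    | inn e a b h => exact (Equiv.injective _).ne (hκ a b h)
    | st e a h =>
      have := (Equiv.injective (Equiv.swap (κ Q.p) (c (src e)))).ne (hκ _ _ h)
      rwa [Equiv.swap_apply_left] at this
    | en e =>
      show Equiv.swap (κ Q.p) (c (src e)) (κ Q.r) ≠ c (tgt e)
      rw [← Q.eq κ hκ, Equiv.swap_apply_left]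
      exact h2 e
  refine ⟨d, fun u v h he => ?_⟩
  rcases ((fromRel_adj _ _ _).1 h).2 with h | h
  · exact key u v h he
  · exact (key v u h (by rwa [Sym2.eq_swap])).symm

/-- parity invariant of short walks ending in the core -/
def Inv (Q : EqG q g) (src tgt : E → V) (side : V → ℕ) (t n : ℕ) : V ⊕ E × Fin Q.N → Prop
  | .inl u => (side u + n) % 2 = t % 2
  | .inr (e, x) => (∃ w : Q.F.Walk x Q.p, w.length ≤ n ∧ (side (src e) + w.length + n) % 2 = t % 2) ∨
      ∃ w : Q.F.Walk x Q.r, w.length ≤ n ∧ (side (tgt e) + 1 + w.length + n) % 2 = t % 2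

lemma inv_walk (side : V → ℕ) (hs : ∀ u v, Cr u v → (side u + side v) % 2 = 1) (v : V)
    {z z' : V ⊕ E × Fin Q.N} (w : (SG Q Cr src tgt).Walk z z') (hz : z' = .inl v)
    (hw : w.length < g) : Inv Q src tgt side (side v) w.length z := by
  induction w with
  | nil => subst hz; simp [Inv]
  | @cons a b c hadj p ih =>
    rw [Walk.length_cons] at hw ⊢
    have h1 := ih hz (by omega)
    rcases ((fromRel_adj _ _ _).1 hadj).2 with hr | hr
    · cases hr with
      | core u u' h => have := hs u u' h; simp only [Inv] at h1 ⊢; omega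
      | inn e x y h =>
        rcases h1 with ⟨w, a1, a2⟩ | ⟨w, a1, a2⟩
        · exact Or.inl ⟨.cons h w, by rw [Walk.length_cons]; omega, by rw [Walk.length_cons]; omega⟩
        · exact Or.inr ⟨.cons h w, by rw [Walk.length_cons]; omega, by rw [Walk.length_cons]; omega⟩
      | st e x h =>
        rcases h1 with ⟨w, a1, a2⟩ | ⟨w, a1, a2⟩
        · have := Nat.even_iff.1 (Q.ev _ (.cons h w) (by rw [Walk.length_cons]; omega))
          rw [Walk.length_cons] at this
          simp only [Inv]; omega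
        · have := Q.far (.cons h w)
          rw [Walk.length_cons] at this
          omega
      | en e =>
        simp only [Inv] at h1
        exact Or.inr ⟨.nil, by simp, by rw [Walk.length_nil]; omega⟩
    · cases hr with
      | core u u' h => have := hs _ _ h; simp only [Inv] at h1 ⊢; omega
      | inn e x y h =>
        rcases h1 with ⟨w, a1, a2⟩ | ⟨w, a1, a2⟩
        · exact Or.inl ⟨.cons h.symm w, by rw [Walk.length_cons]; omega,
            by rw [Walk.length_cons]; omega⟩
        · exact Or.inr ⟨.cons h.symm w, by rw [Walk.length_cons]; omega,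
            by rw [Walk.length_cons]; omega⟩
      | st e x h =>
        simp only [Inv] at h1
        exact Or.inl ⟨.cons h.symm .nil, by simp, by simp only [Walk.length_cons, Walk.length_nil]; omega⟩
      | en e =>
        rcases h1 with ⟨w, a1, a2⟩ | ⟨w, a1, a2⟩
        · have := Q.far w.reverse
          rw [Walk.length_reverse] at this
          omega
        · have := Nat.even_iff.1 (Q.ev _ w (by omega))
          simp only [Inv]; omega

lemma inner_walk {z z' : V ⊕ E × Fin Q.N} (w : (SG Q Cr src tgt).Walk z z')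
    (hw : ∀ u, Sum.inl u ∉ w.support) : ∃ e x e' x', z = .inr (e, x) ∧ z' = .inr (e', x') ∧
      ∃ w' : Q.F.Walk x x', w'.length = w.length := by
  induction w with
  | @nil a =>
    rcases a with u | ⟨e, x⟩
    · exact (hw u (by simp)).elim
    · exact ⟨e, x, e, x, rfl, rfl, .nil, rfl⟩
  | @cons a b c hadj p ih =>
    obtain ⟨e, x, e', x', rfl, rfl, w', hw'⟩ := ih fun u hu => hw u (by simp [hu])
    rcases ((fromRel_adj _ _ _).1 hadj).2 with hr | hr
    · cases hr with
      | inn e y x h => exact ⟨e, y, e', x', rfl, rfl, .cons h w', by simp [hw']⟩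
      | st e x h => exact (hw (src e) (by simp)).elim
    · cases hr with
      | inn e x y h => exact ⟨e, y, e', x', rfl, rfl, .cons h.symm w', by simp [hw']⟩
      | en e => exact (hw (tgt e) (by simp)).elim

lemma SG_even (side : V → ℕ) (hs : ∀ u v, Cr u v → (side u + side v) % 2 = 1)
    {z : V ⊕ E × Fin Q.N} (w : (SG Q Cr src tgt).Walk z z) (hw : w.length < g) :
    Even w.length := by
  classical
  by_cases h : ∃ u, Sum.inl u ∈ w.support
  · obtain ⟨u, hu⟩ := h
    have := inv_walk side hs u (w.rotate _ hu) rfl (by simpa using hw)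
    rw [Walk.length_rotate] at this
    simp only [Inv] at this
    rw [Nat.even_iff]; omega
  · obtain ⟨e, x, e', x', h1, h2, w', h3⟩ := inner_walk w fun u hu => h ⟨u, hu⟩
    obtain rfl : x = x' := by rw [h1] at h2; simp at h2; exact h2.2
    rw [← h3]; exact Q.ev _ w' (by omega)

theorem crit2 {W : Type} [Finite W] {q : ℕ} (G : SimpleGraph W)
    (hG : ¬ ∃ c : W → Fin (q + 1), ∀ u v, G.Adj u v → c u ≠ c v) :
    ∃ n : ℕ, ∃ K : SimpleGraph (Fin n), ∃ f : Fin n → W, Function.Injective f ∧
      K.chromaticNumber = ((q + 2 : ℕ) : ℕ∞) ∧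
      (∀ e ∈ K.edgeSet, (K.deleteEdges {e}).Colorable (q + 1)) ∧
      (∀ v, ∃ w, K.Adj v w) ∧ (∀ a b, K.Adj a b → G.Adj (f a) (f b)) ∧
      ∀ x y, G.Adj x y → Crit G (q + 1) x y → ∃ a b, f a = x ∧ f b = y ∧ K.Adj a b := by
  classical
  have := Fintype.ofFinite W
  obtain ⟨K, ⟨K1, K2⟩, Km⟩ := (wellFounded_lt (α := SimpleGraph W)).has_min
    {K | K ≤ G ∧ ¬ ∃ c : W → Fin (q + 1), ∀ u v, K.Adj u v → c u ≠ c v} ⟨G, le_rfl, hG⟩
  have a1 : ∀ x y, K.Adj x y → Crit K (q + 1) x y := by
    intro x y h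
    by_contra hc
    refine Km (K.deleteEdges {s(x, y)}) ⟨(deleteEdges_le _).trans K1, fun ⟨c, hc'⟩ =>
      hc ⟨c, fun u v a b => hc' u v (by simpa using ⟨a, by simpa using b⟩)⟩⟩
      (lt_of_le_of_ne (deleteEdges_le _) fun e => ?_)
    rw [← e] at h; simp at h
  have a2 : ∀ x y, G.Adj x y → Crit G (q + 1) x y → K.Adj x y := by
    rintro x y h ⟨c, hc⟩
    by_contra hk
    refine K2 ⟨c, fun u v a => hc u v (K1 a) fun e => hk ?_⟩
    rw [← mem_edgeSet, ← e]; exact a
  let e := Fintype.equivFin K.support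
  let f : Fin (Fintype.card K.support) → W := fun i => (e.symm i).1
  have hf : Function.Injective f := Subtype.val_injective.comp e.symm.injective
  have gs : ∀ x y, K.Adj x y → ∃ i, f i = x := fun x y h => ⟨e ⟨x, y, h⟩, by simp [f]⟩
  have nc : ¬ (K.comap f).chromaticNumber < ((q + 1 + 1 : ℕ) : ℕ∞) := by
    rw [lt_iff]
    rintro ⟨c, hc⟩
    refine K2 ⟨fun v => if h : ∃ i, f i = v then c h.choose else 0, fun u v h => ?_⟩
    have b1 := gs _ _ h
    have b2 := gs _ _ h.symm
    simp only [dif_pos b1, dif_pos b2]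
    exact hc _ _ (by rw [comap_adj, b1.choose_spec, b2.choose_spec]; exact h)
  have ni : ∀ v, ∃ w, (K.comap f).Adj v w := by
    intro v
    obtain ⟨w, hw⟩ := (e.symm v).2
    obtain ⟨i, rfl⟩ := gs _ _ hw.symm
    exact ⟨i, hw⟩
  refine ⟨_, K.comap f, f, hf, le_antisymm ?_ (not_lt.1 nc), ?_, ni, fun a b h => K1 h, ?_⟩
  · rw [chromaticNumber_le_iff_colorable]
    rcases isEmpty_or_nonempty (Fin (Fintype.card K.support)) with h | ⟨⟨v⟩⟩
    · exact ⟨Coloring.mk (fun _ => 0) (fun {a} => isEmptyElim a)⟩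
    · obtain ⟨w, hw⟩ := ni v
      obtain ⟨c, hc⟩ := a1 _ _ hw
      refine ⟨Coloring.mk (fun a => if a = v then Fin.last (q + 1) else (c (f a)).castSucc) ?_⟩
      intro a b h
      have := h.ne
      by_cases ha : a = v <;> by_cases hb : b = v
      · exact absurd (ha.trans hb.symm) this
      · simp [ha, hb, (Fin.castSucc_lt_last _).ne']
      · simp [ha, hb]
      · simp only [ha, hb, if_false, Ne, Fin.castSucc_inj]
        refine hc _ _ h fun e' => ?_
        rcases Sym2.eq_iff.1 e' with h' | h'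
        · exact ha (hf h'.1)
        · exact hb (hf h'.2)
  · intro ed hed
    induction ed using Sym2.ind with
    | _ v w =>
    obtain ⟨c, hc⟩ := a1 _ _ hed
    refine ⟨Coloring.mk (c ∘ f) fun {a b} h' => ?_⟩
    rw [deleteEdges_adj] at h'
    refine hc _ _ h'.1 fun e' => h'.2 ?_
    simpa [hf.eq_iff] using e'
  · intro x y h hc
    have := a2 x y h hc
    obtain ⟨a, rfl⟩ := gs _ _ this
    obtain ⟨b, rfl⟩ := gs _ _ this.symm
    exact ⟨a, b, rfl, rfl, this⟩

end Pool.Agent.H.DC
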