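import Pool.Agent.H.MP_7b15fe_co.A

/-! A Toft-type construction: a complete bipartite core all of whose edges are critical. -/

set_option autoImplicit false

namespace Pool.Agent.H.DC

open SimpleGraph Finset Pool.Agent.H.SC

/-- gadget vertices: reference colours and chain vertices (kind `0,1,2`) -/
abbrev Gv (q r m : ℕ) := Bool × (Fin (q + 1) ⊕ Fin 3 × Fin r × Fin m)

/-- all vertices before stretching -/
abbrev Vx (q r m : ℕ) := Bool × (Fin r → Fin m) ⊕ Gv q r m

variable {q r m : ℕ} (o : Bool → Fin r → Fin (q + 1))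

/-- lists of the gadget vertices -/
def Ls : Gv q r m → Fin (q + 1) → Prop
  | (_, .inl j), i => i = j
  | (b, .inr (k, j, x)), i =>
      (k = 0 ∧ (i = o b j ∨ i = 0)) ∨
      (k = 1 ∧ ((i = o b j ∧ x.val ≠ 0) ∨ i = 0 ∨ i = o (!b) j)) ∨
      (k = 2 ∧ ((i = o b j ∧ x.val + 1 ≠ m) ∨ i = o (!b) j))

/-- successor along the chain -/
def nx : Gv q r m → Gv q r m
  | (b, .inl j) => (b, .inl j)
  | (b, .inr (k, j, x)) =>
      if k = 0 then (b, .inr (1, j, x)) else if k = 1 then (b, .inr (2, j, x)) else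
        if h : x.val + 1 < m then (b, .inr (1, j, ⟨x.val + 1, h⟩)) else (b, .inr (k, j, x))

/-- active gadget edges -/
def Act : Gv q r m × Option (Fin (q + 1)) → Prop
  | (v, some i) => ¬ Ls o v i
  | (v, none) => nx v ≠ v

/-- gadget edges -/
abbrev Ed (m : ℕ) := {z : Gv q r m × Option (Fin (q + 1)) // Act o z}

/-- source of a gadget edge -/
def src (z : Ed o m) : Vx q r m := .inr z.1.1

/-- target of a gadget edge -/
def tgt (z : Ed o m) : Vx q r m := match z.1.2 with
  | some i => .inr (false, .inl i)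
  | none => .inr (nx z.1.1)

/-- core edges -/
inductive Cr : Vx q r m → Vx q r m → Prop
  | ab (a a') : Cr (.inl (false, a)) (.inl (true, a'))
  | aS (b a j) : Cr (.inl (b, a)) (.inr (b, .inr (0, j, a j)))
  | aR (b a i) : i ≠ 0 → (∀ j, i ≠ o b j) → Cr (.inl (b, a)) (.inr (b, .inl i))

/-- bipartition of the core -/
def side : Vx q r m → ℕ
  | .inl (b, _) => if b then 1 else 0
  | .inr (b, _) => if b then 0 else 1

lemma side_Cr (u v : Vx q r m) (h : Cr o u v) : (side u + side v) % 2 = 1 := by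
  cases h with
  | ab a a' => simp [side]
  | aS b a j => cases b <;> simp [side]
  | aR b a i _ _ => cases b <;> simp [side]

variable {o}

lemma notcol (hm : 0 < m) (h0 : ∀ b j, o b j ≠ 0) (ho : ∀ b j, o (!b) j ≠ o b j)
    (c0 : Vx q r m → Fin (q + 1)) (h1 : ∀ u v, Cr o u v → c0 u ≠ c0 v)
    (h2 : ∀ e : Ed o m, c0 (src o e) ≠ c0 (tgt o e)) : False := by
  have hl : ∀ (v : Gv q r m) i, ¬ Ls o v i → c0 (.inr v) ≠ c0 (.inr (false, .inl i)) :=
    fun v i h => h2 ⟨(v, some i), h⟩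
  have hi : Function.Injective (fun i => c0 (.inr (false, .inl i))) := fun i j h => by
    by_contra hn
    exact hl (false, .inl i) j (fun e => hn e.symm) h
  let σ := Equiv.ofBijective _ (Finite.injective_iff_bijective.1 hi)
  let c : Vx q r m → Fin (q + 1) := fun v => σ.symm (c0 v)
  have hc : ∀ u v, Cr o u v → c u ≠ c v := fun u v h e => h1 u v h (σ.symm.injective e)
  have hn : ∀ v : Gv q r m, nx v ≠ v → c (.inr v) ≠ c (.inr (nx v)) :=
    fun v h e => h2 ⟨(v, none), h⟩ (σ.symm.injective e)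
  have hA : ∀ v : Gv q r m, Ls o v (c (.inr v)) := fun v => by
    by_contra hn
    exact hl v _ hn (σ.apply_symm_apply (c0 (.inr v))).symm
  have on : ∀ b j, ∃ x, c (.inr (b, .inr (0, j, x))) = o b j := by
    intro b j
    by_contra hx
    have s1 : ∀ x, c (.inr (b, .inr (0, j, x))) = 0 := fun x => by
      have := hA (b, .inr (0, j, x))
      simp only [Ls] at this
      grind
    have s2 : ∀ x, c (.inr (b, .inr (1, j, x))) ≠ o b j →
        c (.inr (b, .inr (2, j, x))) = o b j ∧ x.val + 1 ≠ m := by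
      intro x h
      have a1 := hn (b, .inr (0, j, x)) (by simp [nx])
      have a2 := hn (b, .inr (1, j, x)) (by simp [nx])
      have a3 := hA (b, .inr (1, j, x))
      have a4 := hA (b, .inr (2, j, x))
      rw [s1] at a1
      simp only [nx, Ls] at a1 a2 a3 a4
      grind
    have s3 : ∀ i (h : i < m), c (.inr (b, .inr (1, j, ⟨i, h⟩))) ≠ o b j := by
      intro i
      induction i with
      | zero =>
        intro h e
        have a3 := hA (b, .inr (1, j, ⟨0, h⟩))
        have := h0 b j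
        have := ho b j
        simp only [Ls] at a3
        grind
      | succ i ih =>
        intro h e
        have a1 := hn (b, .inr (2, j, ⟨i, by omega⟩)) (by simp [nx, h])
        simp only [nx, h] at a1
        exact a1 ((s2 _ (ih _)).1.trans e.symm)
    exact (s2 _ (s3 (m - 1) (by omega))).2 (by simp only; omega)
  choose f hf using on
  have zero : ∀ b, c (.inl (b, f b)) = 0 := by
    intro b
    by_contra hz
    by_cases h : ∃ j, c (.inl (b, f b)) = o b j
    · obtain ⟨j, hj⟩ := h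
      exact hc _ _ (.aS b (f b) j) (hj.trans (hf b j).symm)
    · exact hc _ _ (.aR b (f b) _ hz fun j hj => h ⟨j, hj⟩) (hA (b, .inl _)).symm
  exact hc _ _ (.ab _ _) ((zero false).trans (zero true).symm)

open Classical in
/-- the colouring witnessing criticality -/
noncomputable def col (o : Bool → Fin r → Fin (q + 1)) (s : Bool → Fin r → Fin m) :
    Vx q r m → Fin (q + 1)
  | .inl (b, a) => if h : ∃ j, a j ≠ s b j then o b h.choose else 0
  | .inr (_, .inl i) => i
  | .inr (b, .inr (k, j, x)) =>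
      if k = 0 then (if x = s b j then o b j else 0) else if k = 1 then
        (if x.val < (s b j).val then o (!b) j else if x = s b j then 0 else o b j)
      else (if x.val < (s b j).val then o b j else o (!b) j)

lemma col_ok (h0 : ∀ b j, o b j ≠ 0) (hi : ∀ b j b' j', o b j = o b' j' → b = b' ∧ j = j')
    (s : Bool → Fin r → Fin m) :
    (∀ u v, Cr o u v → s(u, v) ≠ s(.inl (false, s false), .inl (true, s true)) →
      col o s u ≠ col o s v) ∧ ∀ e : Ed o m, col o s (src o e) ≠ col o s (tgt o e) := by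
  have ho : ∀ b j, o (!b) j ≠ o b j := fun b j h => by simpa using (hi _ _ _ _ h).1
  constructor
  · intro u v h he
    cases h with
    | ab a a' =>
      simp only [col]
      split_ifs with a1 a2 a2
      · intro e; simpa using (hi _ _ _ _ e).1
      · exact h0 _ _
      · exact (h0 _ _).symm
      · push Not at a1 a2
        exact absurd (by rw [funext a1, funext a2]) he
    | aS b a j =>
      simp only [col, if_true]
      split_ifs with a1 a2 a2
      · intro e
        exact a1.choose_spec (by rw [(hi _ _ _ _ e).2]; exact a2)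
      · exact h0 _ _
      · exact (h0 _ _).symm
      · exact absurd ⟨j, a2⟩ a1
    | aR b a i a3 a4 =>
      simp only [col]
      split_ifs with a1
      · exact (a4 _).symm
      · exact a3.symm
  · rintro ⟨⟨v, _ | i⟩, h⟩
    · rcases v with ⟨b, j | ⟨k, j, x⟩⟩
      · exact absurd rfl h
      · have := h0 b j; have := h0 (!b) j; have := ho b j
        by_cases k0 : k = 0
        · subst k0; simp only [src, tgt, nx, col, if_true]; grind
        by_cases k1 : k = 1
        · subst k1; simp only [src, tgt, nx, col]; grind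
        by_cases hx : x.val + 1 < m
        · simp only [src, tgt, nx, col, k0, k1, hx, dif_pos, if_false, Fin.ext_iff (b := s b j)]
          grind
        · simp [Act, nx, k0, k1, hx] at h
    · intro e
      apply h
      rw [show i = col o s (.inr v) from e.symm]
      rcases v with ⟨b, j | ⟨k, j, x⟩⟩
      · rfl
      · have := (s b j).2
        simp only [Ls, col, Fin.ext_iff (a := x)]
        have : k = 0 ∨ k = 1 ∨ k = 2 := by omega
        grind

/-- the conclusion for one graph -/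
def Good (k l n : ℕ) (G : SimpleGraph (Fin n)) : Prop :=
  G.chromaticNumber = (k : ℕ∞) ∧ (∀ e ∈ G.edgeSet, (G.deleteEdges {e}).Colorable (k - 1)) ∧
    (∀ v : Fin n, ∃ w : Fin n, G.Adj v w) ∧
    (∀ (v : Fin n) (p : G.Walk v v), p.IsCycle → Odd p.length → l ≤ p.length)

theorem main (l : ℕ) (o : Bool → Fin r → Fin (q + 1)) (h0 : ∀ b j, o b j ≠ 0)
    (hi : ∀ b j b' j', o b j = o b' j' → b = b' ∧ j = j') :
    ∃ C : ℕ, ∀ m, 0 < m → ∃ n, ∃ G : SimpleGraph (Fin n), Good (q + 2) l n G ∧ m ^ r ≤ n ∧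
      n ≤ 2 * m ^ r + C * m ∧ (m ^ r) ^ 2 ≤ Nat.card G.edgeSet := by
  classical
  obtain ⟨Q⟩ := exists_EqG q l
  refine ⟨2 * (q + 1 + 3 * r) * (1 + (q + 2) * Q.N), fun m hm => ?_⟩
  have ho : ∀ b j, o (!b) j ≠ o b j := fun b j h => by simpa using (hi _ _ _ _ h).1
  obtain ⟨n, K, f, hf, a1, a2, a3, a4, a5⟩ := crit2 (q := q) (SG Q (Cr o) (src o (m := m)) (tgt o))
    (by
      rintro ⟨c, hc⟩
      refine notcol hm h0 ho (fun v => c (.inl v)) (fun u v h => hc _ _ ?_) (SG_col hc)
      refine (fromRel_adj _ _ _).2 ⟨fun e => ?_, Or.inl (.core u v h)⟩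
      have := side_Cr o u v h
      rw [Sum.inl.inj e] at this
      omega)
  have a6 : ∀ a a' : Fin r → Fin m, ∃ x y, f x = .inl (.inl (false, a)) ∧
      f y = .inl (.inl (true, a')) ∧ K.Adj x y := by
    intro a a'
    have := col_ok h0 hi (fun b => if b then a' else a)
    exact a5 _ _ ((fromRel_adj _ _ _).2 ⟨by simp, Or.inl (.core _ _ (.ab a a'))⟩)
      (SG_crit _ _ _ this.1 this.2)
  choose φ ψ b1 b2 b3 using a6
  refine ⟨n, K, ⟨a1, a2, a3, fun v p _ hp => ?_⟩, ?_, ?_, ?_⟩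
  · by_contra hc
    have := SG_even side (side_Cr o) (p.map ⟨f, fun {a b} h => a4 a b h⟩) (by simpa using hc)
    rw [Walk.length_map] at this
    exact Nat.not_even_iff_odd.2 hp this
  · have := Fintype.card_le_of_injective (fun a => φ a a) fun a a' h => by
      have := congrArg f h
      simp only [b1] at this
      simpa using this
    simpa using this
  · have c1 := Fintype.card_le_of_injective f hf
    have c2 : Fintype.card (Ed o m) ≤ Fintype.card (Gv q r m × Option (Fin (q + 1))) :=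
      Fintype.card_subtype_le _
    simp only [Fintype.card_sum, Fintype.card_prod, Fintype.card_fin, Fintype.card_bool,
      Fintype.card_fun, Fintype.card_option] at c1 c2
    have c3 : 2 * (q + 1 + 3 * (r * m)) ≤ 2 * (q + 1 + 3 * r) * m := by nlinarith
    calc n ≤ 2 * m ^ r + 2 * (q + 1 + 3 * (r * m)) + 2 * (q + 1 + 3 * (r * m)) * (q + 1 + 1) * Q.N :=
          c1.trans (by gcongr)
      _ = 2 * m ^ r + 2 * (q + 1 + 3 * (r * m)) * (1 + (q + 2) * Q.N) := by ring
      _ ≤ 2 * m ^ r + 2 * (q + 1 + 3 * r) * m * (1 + (q + 2) * Q.N) := by gcongr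
      _ = _ := by ring
  · have := Nat.card_le_card_of_injective
      (fun z : (Fin r → Fin m) × (Fin r → Fin m) =>
        (⟨s(φ z.1 z.2, ψ z.1 z.2), b3 z.1 z.2⟩ : K.edgeSet)) (by
        rintro ⟨a, a'⟩ ⟨d, d'⟩ h
        have := congrArg (fun e : K.edgeSet => Sym2.map f e.1) h
        simpa [b1, b2] using this)
    simpa [sq] using this

theorem small (l q : ℕ) (hq : 2 ≤ q) : ∃ c : ℝ, 0 < c ∧ ∀ N : ℕ, ∃ n : ℕ, N ≤ n ∧
    ∃ G : SimpleGraph (Fin n), Good (q + 2) l n G ∧ c * (n : ℝ) ^ 2 ≤ (Nat.card G.edgeSet : ℝ) := by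
  obtain ⟨C, hC⟩ := main (q := q) (r := 1) l
    (fun b _ => if b then ⟨1, by omega⟩ else ⟨2, by omega⟩)
    (fun b j => by cases b <;> simp [Fin.ext_iff])
    (fun b j b' j' h => ⟨by cases b <;> cases b' <;> simp_all [Fin.ext_iff], Subsingleton.elim _ _⟩)
  refine ⟨1 / (C + 2) ^ 2, by positivity, fun N => ?_⟩
  obtain ⟨n, G, a1, a2, a3, a4⟩ := hC (N + 1) N.succ_pos
  rw [pow_one] at a2 a3 a4
  refine ⟨n, by omega, G, a1, ?_⟩
  have b1 : (n : ℝ) ≤ (C + 2) * (N + 1 : ℕ) := by exact_mod_cast (by nlinarith : n ≤ (C + 2) * (N + 1))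
  have b2 : (((N + 1 : ℕ) : ℝ)) ^ 2 ≤ Nat.card G.edgeSet := by exact_mod_cast a4
  rw [div_mul_eq_mul_div, one_mul, div_le_iff₀ (by positivity)]
  calc (n : ℝ) ^ 2 ≤ ((C + 2) * (N + 1 : ℕ)) ^ 2 := by gcongr
    _ = ((N + 1 : ℕ) : ℝ) ^ 2 * (C + 2) ^ 2 := by ring
    _ ≤ _ := by gcongr

theorem large (l q : ℕ) (hq : 4 ≤ q) (N : ℕ) : ∃ n : ℕ, N ≤ n ∧
    ∃ G : SimpleGraph (Fin n), Good (q + 2) l n G ∧
      1 / 9 * (n : ℝ) ^ 2 ≤ (Nat.card G.edgeSet : ℝ) := by
  obtain ⟨C, hC⟩ := main (q := q) (r := 2) l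
    (fun b j => if b then ⟨1 + j.val, by omega⟩ else ⟨3 + j.val, by omega⟩)
    (fun b j h => by
      have := congrArg Fin.val h
      cases b <;> simp only [Bool.false_eq_true, if_true, if_false, Fin.val_zero] at this <;> omega)
    (fun b j b' j' h => by
      have := j.2; have := j'.2
      cases b <;> cases b' <;> simp [Fin.ext_iff] at h ⊢ <;> omega)
  obtain ⟨n, G, a1, a2, a3, a4⟩ := hC (N + C + 1) (by omega)
  refine ⟨n, by nlinarith, G, a1, ?_⟩
  have b1 : (n : ℝ) ≤ 3 * ((N + C + 1) ^ 2 : ℕ) := by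
    exact_mod_cast (by nlinarith : n ≤ 3 * (N + C + 1) ^ 2)
  have b2 : ((((N + C + 1) ^ 2 : ℕ) : ℝ)) ^ 2 ≤ Nat.card G.edgeSet := by exact_mod_cast a4
  have b3 : (n : ℝ) ^ 2 ≤ (3 * ((N + C + 1) ^ 2 : ℕ)) ^ 2 := by gcongr
  nlinarith

theorem all (l : ℕ) : ∃ c : ℝ, 0 < c ∧ ∀ k : ℕ, 4 ≤ k → ∀ N : ℕ, ∃ n : ℕ, N ≤ n ∧
    ∃ G : SimpleGraph (Fin n), Good k l n G ∧ c * (n : ℝ) ^ 2 ≤ (Nat.card G.edgeSet : ℝ) := by
  obtain ⟨c1, a1, b1⟩ := small l 2 le_rfl
  obtain ⟨c2, a2, b2⟩ := small l 3 (by omega)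
  refine ⟨min (min c1 c2) (1 / 9), by positivity, fun k hk N => ?_⟩
  have mono : ∀ c : ℝ, min (min c1 c2) (1 / 9) ≤ c → (∃ n : ℕ, N ≤ n ∧
      ∃ G : SimpleGraph (Fin n), Good k l n G ∧ c * (n : ℝ) ^ 2 ≤ (Nat.card G.edgeSet : ℝ)) →
      ∃ n : ℕ, N ≤ n ∧ ∃ G : SimpleGraph (Fin n), Good k l n G ∧
        min (min c1 c2) (1 / 9) * (n : ℝ) ^ 2 ≤ (Nat.card G.edgeSet : ℝ) := by
    rintro c hc ⟨n, d1, G, d2, d3⟩
    exact ⟨n, d1, G, d2, le_trans (by gcongr) d3⟩
  obtain rfl | rfl | h : k = 4 ∨ k = 5 ∨ 6 ≤ k := by omega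
  · exact mono c1 ((min_le_left _ _).trans (min_le_left _ _)) (b1 N)
  · exact mono c2 ((min_le_left _ _).trans (min_le_right _ _)) (b2 N)
  · obtain ⟨q, rfl⟩ : ∃ q, k = q + 2 := ⟨k - 2, by omega⟩
    exact mono _ (min_le_right _ _) (large l q (by omega) N)

end Pool.Agent.H.DC
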